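import Pool.Agent.N561.EK.Stm
import Pool.Agent.W588.HT.Core

/-!
# EK/11: comparison of two paths (written by helper50)
-/

set_option autoImplicit false

namespace Pool.Agent.N50.EK

open Finset Filter Topology Metric
open Pool.Agent.W711.HT (S_LAPC MW)
open Pool.Agent.N561.EK
open scoped Real

theorem open_DD : IsOpen DD := by
  have h1 : IsOpen {w : ℂ | |w.re| < 21 / 20} :=
    isOpen_lt (Complex.continuous_re.abs) continuous_const
  have h2 : IsOpen {w : ℂ | |w.im| < 1 / 4} :=
    isOpen_lt (Complex.continuous_im.abs) continuous_const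
  exact h1.inter h2

theorem PP_sub {z : ℂ} (h0 : 0 ≤ z.im) (h1 : z.im ≤ 23 / 100) : PP z ⊆ DD := by
  rintro w (⟨h, h'⟩ | ⟨h, h', h''⟩)
  · exact ⟨by linarith, by rw [abs_lt]; constructor <;> linarith⟩
  · exact ⟨by linarith, by rw [abs_lt]; constructor <;> linarith⟩

theorem D0_im {z : ℂ} (h : z ∈ D0) : 0 ≤ z.im ∧ z.im ≤ 23 / 100 ∧ |z.re| ≤ 21 / 50 := by
  obtain ⟨h1, h2, h3⟩ := h
  refine ⟨?_, h2, (Complex.abs_re_le_norm z).trans h1⟩
  rcases h3 with h3 | h3
  · rw [h3]; simp
  · exact h3.le

/-- the vertical parts -/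
theorem compact_K (a b c : ℝ) : IsCompact ({w : ℂ | |w.re| ≤ a ∧ w.im = b} ∪
    {w : ℂ | |w.re| = a ∧ 0 ≤ w.im ∧ w.im ≤ c}) := by
  apply IsCompact.union
  · refine Metric.isCompact_of_isClosed_isBounded ?_ ?_
    · exact (isClosed_le Complex.continuous_re.abs continuous_const).inter
        (isClosed_eq Complex.continuous_im continuous_const)
    · refine (isBounded_iff_forall_norm_le).2 ⟨a + |b|, ?_⟩
      rintro w ⟨h1, h2⟩
      have := Complex.norm_le_abs_re_add_abs_im w
      rw [h2] at this
      linarith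
  · refine Metric.isCompact_of_isClosed_isBounded ?_ ?_
    · exact (isClosed_eq Complex.continuous_re.abs continuous_const).inter
        ((isClosed_le continuous_const Complex.continuous_im).inter
        (isClosed_le Complex.continuous_im continuous_const))
    · refine (isBounded_iff_forall_norm_le).2 ⟨a + c, ?_⟩
      rintro w ⟨h1, h2, h3⟩
      have := Complex.norm_le_abs_re_add_abs_im w
      rw [h1, abs_of_nonneg h2] at this
      linarith

theorem mm_aux (hl : S_LAPC) (h : ℂ → ℂ) (z z' : ℂ) (hd : DifferentiableOn ℂ h DD)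
    (hz : z ∈ D0) (hzp : 0 < z.im) (hz' : z' ∈ D0) (h1 : deriv h z = 0)
    (h2 : (deriv (deriv h) z).re < 0) (h3 : ∀ w ∈ PP z, w ≠ z → (h w).re < (h z).re)
    (hpos : 0 < (h z).re) : ∃ w ∈ PP z', (h z).re ≤ (h w).re := by
  by_contra hcon
  push Not at hcon
  obtain ⟨a0, a1, a2⟩ := D0_im hz
  obtain ⟨b0, b1, b2⟩ := D0_im hz'
  rw [abs_le] at a2
  -- the set on which `Re h` is smaller than `Re h z`
  have hcont : ContinuousOn (fun w => (h w).re) DD :=
    Complex.continuous_re.comp_continuousOn hd.continuousOn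
  obtain ⟨K, hK⟩ : ∃ K : Set ℂ, K = ({w : ℂ | |w.re| ≤ 1 ∧ w.im = z'.im} ∪
    {w : ℂ | |w.re| = 1 ∧ 0 ≤ w.im ∧ w.im ≤ max z.im z'.im}) := ⟨_, rfl⟩
  have hKc : IsCompact K := by rw [hK]; exact compact_K _ _ _
  have hKD : K ⊆ DD := by
    rw [hK]
    rintro w (⟨h, h'⟩ | ⟨h, h', h''⟩)
    · exact ⟨by linarith, by rw [abs_lt]; constructor <;> linarith⟩
    · have := max_le a1 b1
      exact ⟨by linarith, by rw [abs_lt]; constructor <;> linarith⟩
  have hKn : K.Nonempty := by
    refine ⟨z'.im * Complex.I, ?_⟩
    rw [hK]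
    left
    simp
  have hKlt : ∀ w ∈ K, (h w).re < (h z).re := by
    rw [hK]
    rintro w (⟨e, e'⟩ | ⟨e, e', e''⟩)
    · exact hcon w (Or.inl ⟨e, e'⟩)
    · rcases le_max_iff.1 e'' with e2 | e2
      · apply h3 w (Or.inr ⟨e, e', e2⟩)
        rintro rfl
        rw [abs_eq (by norm_num)] at e
        rcases e with e | e <;> linarith
      · exact hcon w (Or.inr ⟨e, e', e2⟩)
  obtain ⟨k, hkK, hk⟩ := hKc.exists_isMaxOn hKn (hcont.mono hKD)
  obtain ⟨M, hM⟩ : ∃ M : ℝ, M = max (h k).re ((h z).re / 2) := ⟨_, rfl⟩
  have hM0 : 0 < M := by rw [hM]; exact lt_max_of_lt_right (by linarith)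
  have hMlt : M < (h z).re := by
    rw [hM]; exact max_lt (hKlt k hkK) (by linarith)
  have hKM : ∀ w ∈ K, (h w).re ≤ M := fun w hw => by
    rw [hM]; exact (hk hw).trans (le_max_left _ _)
  -- the integrals
  have key : ∀ N : ℕ, ‖∫ x in (-1:ℝ)..1, Complex.exp (N * h (x + z.im * Complex.I))‖ ≤
      4 * Real.exp (N * M) := by
    intro N
    have hf : DifferentiableOn ℂ (fun w => Complex.exp (N * h w)) DD :=
      (hd.const_mul _).cexp
    have hrect : DifferentiableOn ℂ (fun w => Complex.exp (N * h w))
        (Set.uIcc ((-1 : ℝ) + z.im * Complex.I : ℂ).re ((1 : ℝ) + z'.im * Complex.I : ℂ).re ×ℂ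
        Set.uIcc ((-1 : ℝ) + z.im * Complex.I : ℂ).im ((1 : ℝ) + z'.im * Complex.I : ℂ).im) := by
      apply hf.mono
      intro w hw
      rw [Complex.mem_reProdIm] at hw
      obtain ⟨q1, q2⟩ := hw
      simp only [Complex.add_re, Complex.ofReal_re, Complex.mul_re, Complex.I_re, mul_zero,
        Complex.ofReal_im, Complex.I_im, mul_one, sub_zero, add_zero, Complex.add_im,
        Complex.mul_im, zero_add] at q1 q2
      rw [Set.uIcc_of_le (by norm_num)] at q1
      rw [Set.mem_uIcc] at q2
      refine ⟨?_, ?_⟩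
      · rw [abs_lt]; constructor <;> linarith [q1.1, q1.2]
      · rw [abs_lt]; rcases q2 with q2 | q2 <;> constructor <;> linarith [q2.1, q2.2]
    have hc := Complex.integral_boundary_rect_eq_zero_of_differentiableOn _ _ _ hrect
    simp only [Complex.add_re, Complex.ofReal_re, Complex.mul_re, Complex.I_re, mul_zero,
        Complex.ofReal_im, Complex.I_im, mul_one, sub_zero, add_zero, Complex.add_im,
        Complex.mul_im, zero_add, smul_eq_mul] at hc
    have hbd : ∀ w ∈ K, ‖Complex.exp (N * h w)‖ ≤ Real.exp (N * M) := by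
      intro w hw
      rw [Complex.norm_exp]
      apply Real.exp_le_exp.2
      have : ((N : ℂ) * h w).re = N * (h w).re := by
        simp
      rw [this]
      exact mul_le_mul_of_nonneg_left (hKM w hw) (Nat.cast_nonneg _)
    have n1 : ‖∫ x in (-1:ℝ)..1, Complex.exp (N * h (x + z'.im * Complex.I))‖ ≤
        Real.exp (N * M) * |1 - (-1)| := by
      apply intervalIntegral.norm_integral_le_of_norm_le_const
      intro x hx
      rw [Set.uIoc_of_le (by norm_num)] at hx
      apply hbd
      rw [hK]
      left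
      refine ⟨?_, by simp⟩
      simp only [Complex.add_re, Complex.ofReal_re, Complex.mul_re, Complex.I_re, mul_zero,
        Complex.ofReal_im, Complex.I_im, mul_one, sub_zero, add_zero]
      rw [abs_le]
      exact ⟨hx.1.le, hx.2⟩
    have nv : ∀ s : ℝ, |s| = 1 →
        ‖∫ y in z.im..z'.im, Complex.exp (N * h (s + y * Complex.I))‖ ≤
        Real.exp (N * M) * |z'.im - z.im| := by
      intro s hs
      apply intervalIntegral.norm_integral_le_of_norm_le_const
      intro y hy
      have hy' := Set.uIoc_subset_uIcc hy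
      rw [Set.mem_uIcc] at hy'
      apply hbd
      rw [hK]
      right
      refine ⟨by simpa using hs, ?_, ?_⟩
      · simp only [Complex.add_im, Complex.ofReal_im, Complex.mul_im, Complex.ofReal_re,
          Complex.I_im, mul_one, Complex.I_re, mul_zero, add_zero, zero_add]
        rcases hy' with q | q <;> linarith [q.1, q.2]
      · simp only [Complex.add_im, Complex.ofReal_im, Complex.mul_im, Complex.ofReal_re,
          Complex.I_im, mul_one, Complex.I_re, mul_zero, add_zero, zero_add]
        rcases hy' with q | q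
        · exact q.2.trans (le_max_right _ _)
        · exact q.2.trans (le_max_left _ _)
    have nv1 := nv 1 (by norm_num)
    have nv2 := nv (-1) (by norm_num)
    have habs : |z'.im - z.im| ≤ 1 := by
      rw [abs_le]; constructor <;> linarith
    have e0 : (∫ x in (-1:ℝ)..1, Complex.exp (N * h (x + z.im * Complex.I))) =
        (∫ x in (-1:ℝ)..1, Complex.exp (N * h (x + z'.im * Complex.I))) -
        Complex.I * (∫ y in z.im..z'.im, Complex.exp (N * h (((1 : ℝ) : ℂ) + y * Complex.I))) +
        Complex.I * (∫ y in z.im..z'.im,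
          Complex.exp (N * h (((-1 : ℝ) : ℂ) + y * Complex.I))) := by
      linear_combination hc
    rw [e0]
    refine (norm_add_le _ _).trans ((add_le_add_left (norm_sub_le _ _) _).trans ?_)
    rw [norm_mul, norm_mul, Complex.norm_I, one_mul, one_mul]
    have hexp := Real.exp_pos (N * M)
    have e1 : |(1 : ℝ) - (-1)| = 2 := by norm_num
    rw [e1] at n1
    have e2 : Real.exp (N * M) * |z'.im - z.im| ≤ Real.exp (N * M) * 1 :=
      mul_le_mul_of_nonneg_left habs hexp.le
    linarith
  -- the asymptotics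
  have hlap := hl (fun _ => h) (fun _ _ => 1) h (fun _ => 1) DD (-1) 1 z open_DD
    (Eventually.of_forall fun _ => hd) hd
    (fun u hu => Eventually.of_forall fun n x _ => refl_mem_uniformity hu)
    (Eventually.of_forall fun _ => differentiableOn_const _) (differentiableOn_const _)
    (fun u hu => Eventually.of_forall fun n x _ => refl_mem_uniformity hu)
    (by linarith) (by linarith)
    (fun x hx1 hx2 => ⟨by
      simp only [Complex.add_re, Complex.ofReal_re, Complex.mul_re, Complex.I_re, mul_zero,
        Complex.ofReal_im, Complex.I_im, mul_one, sub_zero, add_zero]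
      rw [abs_lt]; constructor <;> linarith, by
      simp only [Complex.add_im, Complex.ofReal_im, Complex.mul_im, Complex.ofReal_re,
          Complex.I_im, mul_one, Complex.I_re, mul_zero, add_zero, zero_add]
      rw [abs_lt]; constructor <;> linarith⟩) h1 h2 one_ne_zero
    (fun x hx1 hx2 hx => h3 _ (Or.inl ⟨by
      simp only [Complex.add_re, Complex.ofReal_re, Complex.mul_re, Complex.I_re, mul_zero,
        Complex.ofReal_im, Complex.I_im, mul_one, sub_zero, add_zero]
      rw [abs_le]; exact ⟨hx1, hx2⟩, by simp⟩) (by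
      intro he
      apply hx
      have := congrArg Complex.re he
      simpa using this))
  simp only [one_mul] at hlap
  have hup : ∀ᶠ N : ℕ in atTop,
      Real.log ‖∫ x in (-1:ℝ)..1, Complex.exp (N * h (x + z.im * Complex.I))‖ / N ≤
      Real.log 4 / N + M := by
    filter_upwards [eventually_gt_atTop 0] with N hN
    have hN' : (0 : ℝ) < N := by exact_mod_cast hN
    have : Real.log ‖∫ x in (-1:ℝ)..1, Complex.exp (N * h (x + z.im * Complex.I))‖ ≤
        Real.log 4 + N * M := by
      rcases eq_or_lt_of_le (norm_nonneg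
        (∫ x in (-1:ℝ)..1, Complex.exp (N * h (x + z.im * Complex.I)))) with e | e
      · rw [← e, Real.log_zero]
        have := Real.log_pos (show (1 : ℝ) < 4 by norm_num)
        positivity
      · have q := Real.log_le_log e (key N)
        rw [Real.log_mul (by norm_num) (Real.exp_pos _).ne', Real.log_exp] at q
        exact q
    rw [div_le_iff₀ hN', add_mul, div_mul_cancel₀ _ hN'.ne']
    linarith
  have hlim : Tendsto (fun N : ℕ => Real.log 4 / N + M) atTop (𝓝 (0 + M)) :=
    (tendsto_const_div_atTop_nhds_zero_nat _).add_const _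
  have := le_of_tendsto_of_tendsto hlap hlim hup
  linarith

theorem mm : S_MM := by
  intro h z z' hd hz hzp hz' h1 h2 h3
  obtain ⟨c, hc⟩ : ∃ c : ℂ, c = ((1 - (h z).re : ℝ) : ℂ) := ⟨_, rfl⟩
  have hcre : c.re = 1 - (h z).re := by rw [hc]; exact Complex.ofReal_re _
  have hder : deriv (fun w => h w + c) = deriv h := by
    ext w
    exact deriv_add_const c
  obtain ⟨w, hw, hw'⟩ := mm_aux Pool.Agent.W588.HT.lapc (fun w => h w + c) z z' (hd.add_const c) hz hzp hz'
    (by rw [hder]; exact h1) (by rw [hder]; exact h2)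
    (fun w hw hne => by
      have := h3 w hw hne
      simp only [Complex.add_re]
      linarith) (by simp only [Complex.add_re]; linarith)
  refine ⟨w, hw, ?_⟩
  simp only [Complex.add_re] at hw'
  linarith

end Pool.Agent.N50.EK
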