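import Pool.Agent.N50.EK.Mm

/-!
# EK/16: products (written by helper50)
-/

set_option autoImplicit false

namespace Pool.Agent.N50.EK

open Finset Filter Topology Metric
open Pool.Agent.W711.HT (S_LAPC MW)
open Pool.Agent.N561.EK
open scoped Real

theorem D1_sub : D1 ⊆ DD := by
  rintro w ⟨h1, h2⟩
  have := Complex.abs_re_le_norm w
  exact ⟨by linarith, by linarith⟩

theorem D0_sub : D0 ⊆ DD := by
  intro w hw
  obtain ⟨h1, h2, h3⟩ := D0_im hw
  refine ⟨by linarith, ?_⟩
  rw [abs_of_nonneg h1]; linarith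

theorem tg_add (z G H w : ℂ) : tg z (G + H) w = tg z G w + tg z H w := by
  unfold tg
  rw [Complex.add_im, Complex.add_re]
  ring

theorem tg_zero (z w : ℂ) : tg z 0 w = 0 := by
  unfold tg
  simp

theorem da {F : ℂ → ℂ} (hF : DifferentiableOn ℂ F DD) {ψ : ℂ} (h : ψ ∈ DD) :
    DifferentiableAt ℂ F ψ := hF.differentiableAt (open_DD.mem_nhds h)

theorem deriv_add' {F G : ℂ → ℂ} (hF : DifferentiableOn ℂ F DD) (hG : DifferentiableOn ℂ G DD)
    {ψ : ℂ} (h : ψ ∈ DD) : deriv (fun ψ => F ψ + G ψ) ψ = deriv F ψ + deriv G ψ :=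
  deriv_fun_add (da hF h) (da hG h)

theorem deriv2_add' {F G : ℂ → ℂ} (hF : DifferentiableOn ℂ F DD)
    (hG : DifferentiableOn ℂ G DD) {ψ : ℂ} (h : ψ ∈ DD) :
    deriv (deriv fun ψ => F ψ + G ψ) ψ = deriv (deriv F) ψ + deriv (deriv G) ψ := by
  have he : (deriv fun ψ => F ψ + G ψ) =ᶠ[𝓝 ψ] fun ψ => deriv F ψ + deriv G ψ := by
    filter_upwards [open_DD.mem_nhds h] with w hw
    exact deriv_add' hF hG hw
  rw [he.deriv_eq]
  exact deriv_fun_add (da (hF.deriv open_DD) h) (da (hG.deriv open_DD) h)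

theorem pre0 : PE 0 (fun _ _ => 1) (fun _ => 0) where
  an := fun _ => differentiable_const _
  ev := fun _ _ => rfl
  zero := fun _ => ⟨fun _ _ => rfl, fun _ => rfl⟩
  ana :=
    { Fan := differentiableOn_const _
      Fev := fun _ _ => rfl
      pos := by simp
      mul := fun ψ _ => by simp
      sec := fun ψ _ => by simp
      neg := fun ψ _ => by simp }
  tpl :=
    { tp := fun z _ w _ => by simp [tg_zero]
      tps := fun h => absurd h (by norm_num)
      tpc := fun z _ w _ => by simp [tg_zero] }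
  mw := fun V _ _ ε hε => Eventually.of_forall fun N z _ => ⟨one_ne_zero, by
    simp only [norm_one, Real.log_one, Complex.zero_re, mul_zero, sub_zero, abs_zero]
    positivity⟩
  far := fun ε hε => ⟨1, one_pos, Eventually.of_forall fun N x y _ _ _ => by
    rw [norm_one]
    apply Real.one_le_exp
    simp only [Complex.zero_re, Nat.cast_zero, zero_div, add_zero, zero_add]
    positivity⟩

theorem pre1 (t : ℕ) (X Y : ℕ → ℂ → ℂ) (F G : ℂ → ℂ) (hX : PE t X F) (hY : PE 1 Y G) :
    PE (t + 1) (fun N ψ => X N ψ * Y N ψ) (fun ψ => F ψ + G ψ) where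
  an := fun N => (hX.an N).mul (hY.an N)
  ev := fun N ψ => by
    rw [hX.ev, hY.ev]
  zero := fun h => absurd h (Nat.succ_ne_zero t)
  ana :=
    { Fan := hX.ana.Fan.add hY.ana.Fan
      Fev := fun ψ hψ => by
        rw [hX.ana.Fev ψ hψ, hY.ana.Fev ψ hψ]
      pos := by
        rw [Complex.add_re]
        exact add_nonneg hX.ana.pos hY.ana.pos
      mul := fun ψ hψ => by
        rw [deriv_add' hX.ana.Fan hY.ana.Fan (D1_sub hψ)]
        have h1 := hX.ana.mul ψ hψ
        have h2 := hY.ana.mul ψ hψ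
        have e : deriv F ψ + deriv G ψ + ((t + 1 : ℕ) : ℂ) * ψ / (2 * π) =
            (deriv F ψ + t * ψ / (2 * π)) + (deriv G ψ + ((1 : ℕ) : ℂ) * ψ / (2 * π)) := by
          push_cast; ring
        rw [e]
        refine (norm_add_le _ _).trans ((add_le_add h1 h2).trans (le_of_eq ?_))
        push_cast; ring
      sec := fun ψ hψ => by
        rw [deriv2_add' hX.ana.Fan hY.ana.Fan (D1_sub hψ)]
        have h1 := hX.ana.sec ψ hψ
        have h2 := hY.ana.sec ψ hψ
        have e : deriv (deriv F) ψ + deriv (deriv G) ψ + ((t + 1 : ℕ) : ℂ) / (2 * π) =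
            (deriv (deriv F) ψ + t / (2 * π)) +
            (deriv (deriv G) ψ + ((1 : ℕ) : ℂ) / (2 * π)) := by
          push_cast; ring
        rw [e]
        refine (norm_add_le _ _).trans ((add_le_add h1 h2).trans (le_of_eq ?_))
        push_cast; ring
      neg := fun ψ hψ => by
        rw [deriv2_add' hX.ana.Fan hY.ana.Fan hψ, Complex.add_re]
        exact add_nonpos (hX.ana.neg ψ hψ) (hY.ana.neg ψ hψ) }
  tpl :=
    { tp := fun z hz w hw => by
        rw [deriv_add' hX.ana.Fan hY.ana.Fan (D0_sub hz), tg_add, Complex.add_re, Complex.add_re]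
        have h1 := hX.tpl.tp z hz w hw
        have h2 := hY.tpl.tp z hz w hw
        linarith
      tps := fun _ z hz w hw hne => by
        rw [deriv_add' hX.ana.Fan hY.ana.Fan (D0_sub hz), tg_add, Complex.add_re, Complex.add_re]
        have h1 := hX.tpl.tp z hz w hw
        have h2 := hY.tpl.tps le_rfl z hz w hw hne
        linarith
      tpc := fun z hz w hw => by
        rw [deriv_add' hX.ana.Fan hY.ana.Fan (D0_sub hz), tg_add, Complex.add_re, Complex.add_re]
        have h1 := hX.tpl.tpc z hz w hw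
        have h2 := hY.tpl.tpc z hz w hw
        push_cast at h1 h2 ⊢
        linarith }
  mw := fun V hV hVc ε hε => by
    filter_upwards [hX.mw V hV hVc (ε / 2) (half_pos hε), hY.mw V hV hVc (ε / 2) (half_pos hε)]
      with N h1 h2 z hz
    obtain ⟨a1, a2⟩ := h1 z hz
    obtain ⟨b1, b2⟩ := h2 z hz
    refine ⟨mul_ne_zero a1 b1, ?_⟩
    rw [norm_mul, Real.log_mul (norm_ne_zero_iff.2 a1) (norm_ne_zero_iff.2 b1), Complex.add_re]
    rw [abs_le] at a2 b2 ⊢
    constructor <;> linarith [a2.1, a2.2, b2.1, b2.2]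
  far := fun ε hε => by
    obtain ⟨τ₁, hτ₁, h1⟩ := hX.far (ε / 2) (half_pos hε)
    obtain ⟨τ₂, hτ₂, h2⟩ := hY.far (ε / 2) (half_pos hε)
    refine ⟨min τ₁ τ₂, lt_min hτ₁ hτ₂, ?_⟩
    filter_upwards [h1, h2] with N h1 h2 x y hx hx' hy
    have a := h1 x y hx hx' (hy.trans (min_le_left _ _))
    have b := h2 x y hx hx' (hy.trans (min_le_right _ _))
    rw [norm_mul]
    refine (mul_le_mul a b (norm_nonneg _) (Real.exp_pos _).le).trans (le_of_eq ?_)
    rw [← Real.exp_add, Complex.add_re]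
    congr 1
    push_cast
    ring

theorem pre : S_PRE := ⟨pre0, pre1⟩

end Pool.Agent.N50.EK
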